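import Pool.Agent.helper64.LP.Lang

/-!
# MP_32ee78_lc, module C2b, part 1: from numerical facts about the core points to `Geo`
-/

set_option autoImplicit false

namespace Pool.Agent.helper64.LP
namespace GeoC

/-- point of the parabola -/
noncomputable def P (t : ℝ) : ℂ := ⟨t, t ^ 2⟩

/-- excess over the parabola -/
noncomputable def ex (p : ℂ) : ℝ := p.im - p.re ^ 2

/-- chord functional -/
noncomputable def K (a b : ℝ) (p : ℂ) : ℝ := p.im - (a + b) * p.re + a * b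

theorem K_P (a b t : ℝ) : K a b (P t) = (t - a) * (t - b) := by
  simp only [K, P]; ring

theorem ex_P (t : ℝ) : ex (P t) = 0 := by simp [ex, P]

theorem P_inj {s t : ℝ} (h : P s = P t) : s = t := congrArg Complex.re h

/-- `z = (1-s) p + s q`, `0 ≤ s ≤ 1` -/
def On (p q : ℂ) (s : ℝ) (z : ℂ) : Prop :=
  0 ≤ s ∧ s ≤ 1 ∧ z.re = (1 - s) * p.re + s * q.re ∧ z.im = (1 - s) * p.im + s * q.im

theorem seg {p q z : ℂ} (h : z ∈ segment ℝ p q) : ∃ s : ℝ, On p q s z := by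
  obtain ⟨a, b, ha, hb, hab, rfl⟩ := h
  have : a = 1 - b := by linarith
  subst this
  refine ⟨b, hb, by linarith, ?_, ?_⟩
  · simp
  · simp

theorem On.K_eq {p q z : ℂ} {s : ℝ} (h : On p q s z) (a b : ℝ) :
    K a b z = (1 - s) * K a b p + s * K a b q := by
  obtain ⟨-, -, h1, h2⟩ := h
  simp only [K, h1, h2]; ring

theorem On.ex_eq {p q z : ℂ} {s : ℝ} (h : On p q s z) :
    ex z = (1 - s) * ex p + s * ex q + s * (1 - s) * (p.re - q.re) ^ 2 := by
  obtain ⟨-, -, h1, h2⟩ := h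
  simp only [ex, h1, h2]; ring

theorem On.zero {p q z : ℂ} {s : ℝ} (h : On p q s z) (hs : s = 0) : z = p := by
  obtain ⟨-, -, h1, h2⟩ := h
  subst hs
  exact Complex.ext (by linarith) (by linarith)

theorem On.one {p q z : ℂ} {s : ℝ} (h : On p q s z) (hs : s = 1) : z = q := by
  obtain ⟨-, -, h1, h2⟩ := h
  subst hs
  exact Complex.ext (by linarith) (by linarith)

theorem On.symm {p q z : ℂ} {s : ℝ} (h : On p q s z) : On q p (1 - s) z := by
  obtain ⟨h0, h3, h1, h2⟩ := h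
  exact ⟨by linarith, by linarith, by linarith, by linarith⟩

/-- a segment whose far end is strictly above the parabola -/
theorem On.above {p q z : ℂ} {s : ℝ} (h : On p q s z) (hp : 0 ≤ ex p) (hq : 0 < ex q) :
    0 ≤ ex z ∧ (ex z ≤ 0 → z = p ∧ ex p = 0) := by
  have h1 := h.ex_eq
  have h0 := h.1
  have h2 := h.2.1
  have h3 : 0 ≤ s * (1 - s) * (p.re - q.re) ^ 2 :=
    mul_nonneg (mul_nonneg h0 (by linarith)) (sq_nonneg _)
  have h4 : 0 ≤ (1 - s) * ex p := mul_nonneg (by linarith) hp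
  have h5 : 0 ≤ s * ex q := mul_nonneg h0 hq.le
  refine ⟨by linarith, fun hz => ?_⟩
  have h6 : s * ex q = 0 := by linarith
  have hs : s = 0 := by
    rcases mul_eq_zero.1 h6 with h | h
    · exact h
    · exact absurd h hq.ne'
  refine ⟨h.zero hs, ?_⟩
  have h7 : (1 - s) * ex p = 0 := by linarith
  rw [hs] at h7
  linarith

/-- spokes are below the parabola -/
theorem On.below {M t : ℝ} {z : ℂ} {s : ℝ} (h : On ⟨0, -M⟩ (P t) s z) (hM : t ^ 2 < M) :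
    ex z ≤ 0 ∧ (0 ≤ ex z → z = P t) := by
  have h1 : ex z = (1 - s) * (s * t ^ 2 - M) := by
    rw [h.ex_eq]
    simp only [ex, P]; ring
  have h0 := h.1
  have h2 := h.2.1
  have h3 : s * t ^ 2 - M < 0 := by nlinarith [sq_nonneg t]
  refine ⟨by rw [h1]; nlinarith, fun hz => h.one ?_⟩
  by_contra hne
  have : 0 < 1 - s := by
    rcases lt_or_eq_of_le h2 with h | h
    · linarith
    · exact absurd h hne
  have := mul_neg_of_pos_of_neg this h3
  linarith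

/-- the numerical facts -/
structure Facts {E T : Type} (q : T → Fin 4 → E) (φ : E → ℝ) (μ : T → Fin 4 → ℝ)
    (c : T → CV → ℂ) (g ε : ℝ) (κ : T → Fin 4 → ℝ) : Prop where
  hε : 0 < ε
  hg : ε < g
  φinj : Function.Injective φ
  μφ : ∀ τ i x, μ τ i ≠ φ x
  μinj : ∀ τ i τ' i', μ τ i = μ τ' i' → τ = τ' ∧ i = i'
  cm : ∀ τ i, c τ (.m i) = P (μ τ i)
  exz : ∀ τ, 0 < ex (c τ .z)
  exy : ∀ τ i, 0 < ex (c τ (.y i))
  lX : ∀ x y, x ≠ y → g ≤ K (φ x) (φ x) (P (φ y))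
  lm : ∀ x τ i, g ≤ K (φ x) (φ x) (c τ (.m i))
  lz : ∀ x τ, g ≤ K (φ x) (φ x) (c τ .z)
  ly : ∀ x τ i, q τ i ≠ x → g ≤ K (φ x) (φ x) (c τ (.y i))
  ly' : ∀ τ i, K (φ (q τ i)) (φ (q τ i)) (c τ (.y i)) = ε
  mu : ∀ τ τ' w, τ ≠ τ' → g ≤ K (μ τ' 0) (μ τ' 0) (c τ w)
  mu' : ∀ τ, K (μ τ 0) (μ τ 0) (c τ .z) < g
  ky : ∀ τ i, 0 < κ τ i * K (μ τ (i - 1)) (μ τ i) (c τ (.y i))
  kz : ∀ τ i, κ τ i * K (μ τ (i - 1)) (μ τ i) (c τ .z) < 0
  ky' : ∀ τ i j, j ≠ i → κ τ i * K (μ τ (i - 1)) (μ τ i) (c τ (.y j)) < 0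
  km : ∀ τ i j, j ≠ i → j ≠ i - 1 → κ τ i * K (μ τ (i - 1)) (μ τ i) (c τ (.m j)) < 0
  dist : ∀ τ i τ' i', q τ i = q τ' i' → (c τ (.y i)).re = (c τ' (.y i')).re → τ = τ' ∧ i = i'

section
variable {E T : Type} {q : T → Fin 4 → E} {φ : E → ℝ} {μ : T → Fin 4 → ℝ}
  {c : T → CV → ℂ} {g ε : ℝ} {κ : T → Fin 4 → ℝ}

/-- parameters of the outer ends of spokes -/
def par (φ : E → ℝ) (μ : T → Fin 4 → ℝ) : E ⊕ (T × Fin 4) → ℝ
  | .inl x => φ x
  | .inr a => μ a.1 a.2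

theorem Facts.par_inj (F : Facts q φ μ c g ε κ) : Function.Injective (par φ μ) := by
  rintro (x | a) (y | b) h
  · exact congrArg Sum.inl (F.φinj h)
  · exact absurd h.symm (F.μφ _ _ _)
  · exact absurd h (F.μφ _ _ _)
  · obtain ⟨h1, h2⟩ := F.μinj _ _ _ _ h
    exact congrArg Sum.inr (Prod.ext h1 h2)

theorem Facts.endPt_eq (F : Facts q φ μ c g ε κ) (a : E ⊕ (T × Fin 4)) :
    endPt (fun x => P (φ x)) c a = P (par φ μ a) := by
  rcases a with x | a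
  · rfl
  · exact F.cm _ _

theorem Facts.exm (F : Facts q φ μ c g ε κ) (τ : T) (i : Fin 4) : ex (c τ (.m i)) = 0 := by
  rw [F.cm, ex_P]

theorem Facts.ex_nonneg (F : Facts q φ μ c g ε κ) (τ : T) (w : CV) : 0 ≤ ex (c τ w) := by
  cases w with
  | m i => rw [F.exm]
  | z => exact (F.exz τ).le
  | y i => exact (F.exy τ i).le

theorem Facts.ex_eq_zero (F : Facts q φ μ c g ε κ) {τ : T} {w : CV} (h : ex (c τ w) = 0) :
    ∃ i, w = .m i := by
  cases w with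
  | m i => exact ⟨i, rfl⟩
  | z => exact absurd h (F.exz τ).ne'
  | y i => exact absurd h (F.exy τ i).ne'

theorem Facts.ex_snd (F : Facts q φ μ c g ε κ) {τ : T} {u v : CV} (h : CAdj u v) :
    0 < ex (c τ v) := by
  cases h with
  | mz i => exact F.exz τ
  | zy i => exact F.exy τ i
  | my i => exact F.exy τ i
  | my' i => exact F.exy τ (i + 1)

/-- `l_x ≥ ε` on core vertices -/
theorem Facts.l_ge (F : Facts q φ μ c g ε κ) (x : E) (τ : T) (w : CV) :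
    g ≤ K (φ x) (φ x) (c τ w) ∨ ∃ i, w = .y i ∧ q τ i = x ∧ K (φ x) (φ x) (c τ w) = ε := by
  cases w with
  | m i => exact Or.inl (F.lm x τ i)
  | z => exact Or.inl (F.lz x τ)
  | y i =>
    by_cases h : q τ i = x
    · refine Or.inr ⟨i, rfl, h, ?_⟩
      rw [← h]; exact F.ly' τ i
    · exact Or.inl (F.ly x τ i h)

/-- on a core edge `l_x ≥ ε`, with equality only at an end point `y i` over `x` -/
theorem Facts.edge_l (F : Facts q φ μ c g ε κ) (x : E) {τ : T} {u v : CV} (h : CAdj u v)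
    {z : ℂ} (hz : z ∈ segment ℝ (c τ u) (c τ v)) :
    ε ≤ K (φ x) (φ x) z ∧ (K (φ x) (φ x) z ≤ ε →
      ∃ i, v = .y i ∧ q τ i = x ∧ z = c τ (.y i)) := by
  have hg := F.hg
  obtain ⟨s, hs⟩ := seg hz
  have h1 := hs.K_eq (φ x) (φ x)
  have h0 := hs.1
  have h2 := hs.2.1
  have hu : g ≤ K (φ x) (φ x) (c τ u) := by
    cases h with
    | mz i => exact F.lm x τ i
    | zy i => exact F.lz x τ
    | my i => exact F.lm x τ i
    | my' i => exact F.lm x τ i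
  rcases F.l_ge x τ v with hv | ⟨i, hv, hq, hv'⟩
  · have : g ≤ K (φ x) (φ x) z := by
      rw [h1]; nlinarith
    exact ⟨by linarith, fun h' => absurd h' (by linarith)⟩
  · rw [hv'] at h1
    refine ⟨by rw [h1]; nlinarith, fun h' => ⟨i, hv, hq, ?_⟩⟩
    have hs1 : s = 1 := by
      by_contra hne
      have h3 : 0 < 1 - s := by
        rcases lt_or_eq_of_le h2 with h | h
        · linarith
        · exact absurd h hne
      have h4 := mul_pos h3 (show 0 < K (φ x) (φ x) (c τ u) - ε by linarith)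
      nlinarith
    rw [hs.one hs1, hv]

/-- on a leg over `x`: `l_x ≤ ε`, with equality only at the core end -/
theorem Facts.leg_l (F : Facts q φ μ c g ε κ) (τ : T) (i : Fin 4)
    {z : ℂ} {s : ℝ} (hz : On (P (φ (q τ i))) (c τ (.y i)) s z) :
    K (φ (q τ i)) (φ (q τ i)) z = s * ε := by
  rw [hz.K_eq, K_P, F.ly']
  ring

/-- on a leg over `x ≠ y`: `l_y ≥ g` -/
theorem Facts.leg_l' (F : Facts q φ μ c g ε κ) (τ : T) (i : Fin 4) {y : E} (hy : q τ i ≠ y)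
    {z : ℂ} {s : ℝ} (hz : On (P (φ (q τ i))) (c τ (.y i)) s z) :
    g ≤ K (φ y) (φ y) z := by
  have h1 := hz.K_eq (φ y) (φ y)
  have h2 := F.ly y τ i hy
  have h3 := F.lX y (q τ i) (Ne.symm hy)
  have h0 := hz.1
  have h4 := hz.2.1
  rw [h1]; nlinarith

theorem Facts.ll (F : Facts q φ μ c g ε κ) (τ : T) (i : Fin 4) (τ' : T) (i' : Fin 4)
    (hne : (τ, i) ≠ (τ', i')) (z : ℂ)
    (hz : z ∈ segment ℝ (P (φ (q τ i))) (c τ (.y i)) ∩
      segment ℝ (P (φ (q τ' i'))) (c τ' (.y i'))) :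
    q τ i = q τ' i' ∧ z = P (φ (q τ i)) := by
  obtain ⟨h1, h2⟩ := hz
  obtain ⟨s, hs⟩ := seg h1
  obtain ⟨s', hs'⟩ := seg h2
  have hε := F.hε
  have hg := F.hg
  have hq : q τ i = q τ' i' := by
    by_contra hq
    have h3 := F.leg_l' τ i hq hs
    have h4 := F.leg_l τ' i' hs'
    have := hs'.2.1
    nlinarith
  refine ⟨hq, ?_⟩
  have h3 := F.leg_l τ i hs
  have h4 := F.leg_l τ' i' hs'
  rw [← hq] at h4
  have h5 : s = s' := by
    have : s * ε = s' * ε := by rw [← h3, ← h4]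
    exact mul_right_cancel₀ hε.ne' this
  subst h5
  have h6 := hs.2.2.1
  have h7 := hs'.2.2.1
  rw [← hq] at h7
  have h8 : s * ((c τ (.y i)).re - (c τ' (.y i')).re) = 0 := by linarith
  rcases mul_eq_zero.1 h8 with h9 | h9
  · exact hs.zero h9
  · exfalso
    obtain ⟨h10, h11⟩ := F.dist τ i τ' i' hq (by linarith)
    exact hne (by rw [h10, h11])

theorem Facts.dist' (F : Facts q φ μ c g ε κ) {τ : T} {i : Fin 4} {τ' : T} {i' : Fin 4}
    (h : c τ (.y i) = c τ' (.y i')) : τ = τ' ∧ i = i' := by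
  have hε := F.hε
  have hg := F.hg
  have hq : q τ i = q τ' i' := by
    by_contra hq
    have h3 := F.ly (q τ' i') τ i hq
    rw [h, F.ly'] at h3
    linarith
  exact F.dist τ i τ' i' hq (by rw [h])

theorem Facts.lc (F : Facts q φ μ c g ε κ) (τ : T) (i : Fin 4) (τ' : T) (u v : CV)
    (huv : CAdj u v) (z : ℂ)
    (hz : z ∈ segment ℝ (P (φ (q τ i))) (c τ (.y i)) ∩ segment ℝ (c τ' u) (c τ' v)) :
    τ = τ' ∧ (u = .y i ∨ v = .y i) ∧ z = c τ (.y i) := by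
  obtain ⟨h1, h2⟩ := hz
  obtain ⟨s, hs⟩ := seg h1
  have hε := F.hε
  obtain ⟨h3, h4⟩ := F.edge_l (q τ i) huv h2
  have h5 := F.leg_l τ i hs
  have h6 := hs.2.1
  have h7 : s * ε ≤ ε := by nlinarith
  obtain ⟨j, hj, hq, hzj⟩ := h4 (by rw [h5]; exact h7)
  have h8 : s = 1 := by nlinarith
  have h9 := hs.one h8
  obtain ⟨h10, h11⟩ := F.dist' (h9.symm.trans hzj)
  exact ⟨h10, Or.inr (by rw [hj, h11]), h9⟩

theorem Facts.ca (F : Facts q φ μ c g ε κ) (τ τ' : T) (u v w : CV) (hne : τ ≠ τ')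
    (huv : CAdj u v) : c τ' w ∉ segment ℝ (c τ u) (c τ v) := by
  intro hz
  have hε := F.hε
  have hg := F.hg
  obtain ⟨s, hs⟩ := seg hz
  cases w with
  | m j =>
    have h1 := hs.above (F.ex_nonneg τ u) (F.ex_snd huv)
    obtain ⟨h2, h3⟩ := h1.2 (by rw [F.exm])
    obtain ⟨i, rfl⟩ := F.ex_eq_zero h3
    rw [F.cm, F.cm] at h2
    exact hne (F.μinj _ _ _ _ (P_inj h2)).1.symm
  | z =>
    have h1 := F.mu τ τ' u hne
    have h2 := F.mu τ τ' v hne
    have h3 := F.mu' τ'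
    have h4 := hs.K_eq (μ τ' 0) (μ τ' 0)
    have := hs.1
    have := hs.2.1
    nlinarith
  | y j =>
    obtain ⟨h1, h2⟩ := F.edge_l (q τ' j) huv hz
    obtain ⟨i, -, -, h3⟩ := h2 (F.ly' τ' j).le
    exact hne (F.dist' h3).1.symm

theorem Facts.ss (F : Facts q φ μ c g ε κ) {M : ℝ} (hM : ∀ a, par φ μ a ^ 2 < M)
    (a b : E ⊕ (T × Fin 4)) (hab : a ≠ b) (z : ℂ)
    (hz : z ∈ segment ℝ (⟨0, -M⟩ : ℂ) (P (par φ μ a)) ∩
      segment ℝ (⟨0, -M⟩ : ℂ) (P (par φ μ b))) : z = ⟨0, -M⟩ := by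
  obtain ⟨s, hs⟩ := seg hz.1
  obtain ⟨s', hs'⟩ := seg hz.2
  have hne : par φ μ a - par φ μ b ≠ 0 := sub_ne_zero.2 fun h => hab (F.par_inj h)
  have ha := hM a
  have hb := hM b
  set t := par φ μ a
  set t' := par φ μ b
  have h1 : s * t = s' * t' := by
    have h2 := hs.2.2.1
    have h3 := hs'.2.2.1
    simp only [P] at h2 h3
    linarith
  have h2 : s * (M + t ^ 2) = s' * (M + t' ^ 2) := by
    have h2 := hs.2.2.2
    have h3 := hs'.2.2.2
    simp only [P] at h2 h3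
    linarith
  have h3 : s * s' * ((t - t') * (M - t * t')) = 0 := by
    linear_combination (s' * (M + t' ^ 2)) * h1 - (s' * t') * h2
  have h4 : 0 < M - t * t' := by nlinarith [sq_nonneg (t - t')]
  have h5 : s * s' = 0 := by
    rcases mul_eq_zero.1 h3 with h | h
    · exact h
    · exact absurd h (mul_ne_zero hne h4.ne')
  rcases mul_eq_zero.1 h5 with h | h
  · exact hs.zero h
  · exact hs'.zero h

theorem Facts.sl (F : Facts q φ μ c g ε κ) {M : ℝ} (hM : ∀ a, par φ μ a ^ 2 < M)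
    (a : E ⊕ (T × Fin 4)) (τ : T) (i : Fin 4) (z : ℂ)
    (hz : z ∈ segment ℝ (⟨0, -M⟩ : ℂ) (P (par φ μ a)) ∩
      segment ℝ (P (φ (q τ i))) (c τ (.y i))) : a = .inl (q τ i) ∧ z = P (φ (q τ i)) := by
  obtain ⟨s, hs⟩ := seg hz.1
  obtain ⟨s', hs'⟩ := seg hz.2
  obtain ⟨h1, h2⟩ := hs.below (hM a)
  obtain ⟨h3, h4⟩ := hs'.above (by rw [ex_P]) (F.exy τ i)
  have h5 := h2 h3
  have h6 := (h4 h1).1
  refine ⟨?_, h6⟩
  have h7 : par φ μ a = par φ μ (.inl (q τ i)) := P_inj (h5.symm.trans h6)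
  exact F.par_inj h7

theorem Facts.sc (F : Facts q φ μ c g ε κ) {M : ℝ} (hM : ∀ a, par φ μ a ^ 2 < M)
    (a : E ⊕ (T × Fin 4)) (τ : T) (u v : CV) (huv : CAdj u v) (z : ℂ)
    (hz : z ∈ segment ℝ (⟨0, -M⟩ : ℂ) (P (par φ μ a)) ∩ segment ℝ (c τ u) (c τ v)) :
    ∃ i, a = .inr (τ, i) ∧ (u = .m i ∨ v = .m i) ∧ z = c τ (.m i) := by
  obtain ⟨s, hs⟩ := seg hz.1
  obtain ⟨s', hs'⟩ := seg hz.2
  obtain ⟨h1, h2⟩ := hs.below (hM a)
  obtain ⟨h3, h4⟩ := hs'.above (F.ex_nonneg τ u) (F.ex_snd huv)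
  have h5 := h2 h3
  obtain ⟨h6, h7⟩ := h4 h1
  obtain ⟨i, rfl⟩ := F.ex_eq_zero h7
  refine ⟨i, ?_, Or.inl rfl, h6⟩
  have h8 : par φ μ a = par φ μ (.inr (τ, i)) := by
    rw [F.cm] at h6
    exact P_inj (h5.symm.trans h6)
  exact F.par_inj h8

theorem Facts.inj (F : Facts q φ μ c g ε κ) {M : ℝ} (hM0 : 0 < M) : Function.Injective (allPt (⟨0, -M⟩ : ℂ) (fun x => P (φ x)) c) := by
  have hε := F.hε
  have hg := F.hg
  have hh : ex (⟨0, -M⟩ : ℂ) < 0 := by simp [ex, hM0]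
  have hX : ∀ x, ex (P (φ x)) = 0 := fun x => ex_P _
  have key : ∀ τ w τ' w', c τ w = c τ' w' → (τ, w) = (τ', w') := by
    intro τ w τ' w' h
    cases w with
    | m i =>
      have h1 : ex (c τ' w') = 0 := by rw [← h, F.exm]
      obtain ⟨j, rfl⟩ := F.ex_eq_zero h1
      rw [F.cm, F.cm] at h
      obtain ⟨h2, h3⟩ := F.μinj _ _ _ _ (P_inj h)
      rw [h2, h3]
    | z =>
      cases w' with
      | m j =>
        have h1 := F.exz τ
        rw [h, F.exm] at h1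
        exact absurd h1 (lt_irrefl _)
      | z =>
        by_contra hne
        have hne' : τ ≠ τ' := fun h => hne (by rw [h])
        have h1 := F.mu τ τ' .z hne'
        have h2 := F.mu' τ'
        rw [h] at h1
        linarith
      | y j =>
        exfalso
        have h1 := F.lz (q τ' j) τ
        rw [h, F.ly'] at h1
        linarith
    | y i =>
      cases w' with
      | m j =>
        have h1 := F.exy τ i
        rw [h, F.exm] at h1
        exact absurd h1 (lt_irrefl _)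
      | z =>
        exfalso
        have h1 := F.lz (q τ i) τ'
        rw [← h, F.ly'] at h1
        linarith
      | y j =>
        obtain ⟨h2, h3⟩ := F.dist' h
        rw [h2, h3]
  rintro (_ | x | a) (_ | y | b) h
  · rfl
  · exfalso
    have h1 : ex (⟨0, -M⟩ : ℂ) = ex (P (φ y)) := congrArg ex h
    rw [hX] at h1
    linarith
  · exfalso
    have h1 : ex (⟨0, -M⟩ : ℂ) = ex (c b.1 b.2) := congrArg ex h
    have := F.ex_nonneg b.1 b.2
    linarith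
  · exfalso
    have h1 : ex (P (φ x)) = ex (⟨0, -M⟩ : ℂ) := congrArg ex h
    rw [hX] at h1
    linarith
  · exact congrArg (fun t => some (Sum.inl t)) (F.φinj (P_inj h))
  · exfalso
    have h0 : P (φ x) = c b.1 b.2 := h
    have h1 : ex (c b.1 b.2) = 0 := by rw [← h0, hX]
    obtain ⟨i, hi⟩ := F.ex_eq_zero h1
    rw [hi, F.cm] at h0
    exact F.μφ _ _ _ (P_inj h0).symm
  · exfalso
    have h1 : ex (c a.1 a.2) = ex (⟨0, -M⟩ : ℂ) := congrArg ex h
    have := F.ex_nonneg a.1 a.2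
    linarith
  · exfalso
    have h0 : c a.1 a.2 = P (φ y) := h
    have h1 : ex (c a.1 a.2) = 0 := by rw [h0, hX]
    obtain ⟨i, hi⟩ := F.ex_eq_zero h1
    rw [hi, F.cm] at h0
    exact F.μφ _ _ _ (P_inj h0)
  · have h1 := key a.1 a.2 b.1 b.2 h
    have h2 : a = b := h1
    rw [h2]

/-! ### two core edges of the same gadget -/

theorem On.common {p a b z : ℂ} {s s' : ℝ} (h : On p a s z) (h' : On p b s' z) :
    z = p ∨ (∃ r, 0 < r ∧ On p a r b) ∨ (∃ r, 0 < r ∧ On p b r a) := by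
  by_cases hs : s = 0
  · exact Or.inl (h.zero hs)
  by_cases hs' : s' = 0
  · exact Or.inl (h'.zero hs')
  have h0 : 0 < s := lt_of_le_of_ne h.1 (Ne.symm hs)
  have h0' : 0 < s' := lt_of_le_of_ne h'.1 (Ne.symm hs')
  obtain ⟨-, -, h1, h2⟩ := h
  obtain ⟨-, -, h1', h2'⟩ := h'
  right
  rcases le_total s s' with hle | hle
  · left
    refine ⟨s / s', div_pos h0 h0', (div_pos h0 h0').le, (div_le_one h0').2 hle, ?_, ?_⟩
    · field_simp
      linarith
    · field_simp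
      linarith
  · right
    refine ⟨s' / s, div_pos h0' h0, (div_pos h0' h0).le, (div_le_one h0).2 hle, ?_, ?_⟩
    · field_simp
      linarith
    · field_simp
      linarith

/-- the side functional of the `i`-th corner -/
noncomputable def kf (μ : T → Fin 4 → ℝ) (κ : T → Fin 4 → ℝ) (τ : T) (i : Fin 4) (p : ℂ) : ℝ :=
  κ τ i * K (μ τ (i - 1)) (μ τ i) p

theorem On.kf_eq {p q z : ℂ} {s : ℝ} (h : On p q s z) (τ : T) (i : Fin 4) :
    kf μ κ τ i z = (1 - s) * kf μ κ τ i p + s * kf μ κ τ i q := by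
  simp only [kf, h.K_eq]
  ring

theorem Facts.kf_m_zero (F : Facts q φ μ c g ε κ) (τ : T) (i j : Fin 4)
    (h : j = i ∨ j = i - 1) : kf μ κ τ i (c τ (.m j)) = 0 := by
  rw [kf, F.cm, K_P]
  rcases h with h | h <;> simp [h]

theorem Facts.kf_m_le (F : Facts q φ μ c g ε κ) (τ : T) (i j : Fin 4) :
    kf μ κ τ i (c τ (.m j)) ≤ 0 := by
  by_cases h : j = i ∨ j = i - 1
  · exact (F.kf_m_zero τ i j h).le
  · push Not at h
    exact (F.km τ i j h.1 h.2).le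

theorem Facts.kf_y_pos (F : Facts q φ μ c g ε κ) (τ : T) (i : Fin 4) :
    0 < kf μ κ τ i (c τ (.y i)) := F.ky τ i

theorem Facts.kf_y_neg (F : Facts q φ μ c g ε κ) (τ : T) (i j : Fin 4) (h : j ≠ i) :
    kf μ κ τ i (c τ (.y j)) < 0 := F.ky' τ i j h

theorem Facts.kf_z_neg (F : Facts q φ μ c g ε κ) (τ : T) (i : Fin 4) :
    kf μ κ τ i (c τ .z) < 0 := F.kz τ i

theorem Facts.m_inj (F : Facts q φ μ c g ε κ) {τ : T} {i j : Fin 4}
    (h : c τ (.m i) = c τ (.m j)) : i = j := by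
  rw [F.cm, F.cm] at h
  exact (F.μinj _ _ _ _ (P_inj h)).2

/-- linear functional: nonpositive at `p`, negative at `q`, value `≥ 0` at `z` ⇒ `z = p` -/
theorem On.eq_of_neg {p q z : ℂ} {s A B C : ℝ} (h : On p q s z) (hC : C = (1 - s) * A + s * B)
    (hA : A ≤ 0) (hB : B < 0) (h0 : 0 ≤ C) : z = p ∧ C = 0 := by
  have h1 := h.1
  have h2 := h.2.1
  have h3 : (1 - s) * A ≤ 0 := mul_nonpos_of_nonneg_of_nonpos (by linarith) hA
  have h4 : s * B ≤ 0 := mul_nonpos_of_nonneg_of_nonpos h1 hB.le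
  have h5 : s * B = 0 := by linarith
  have hs : s = 0 := by
    rcases mul_eq_zero.1 h5 with h | h
    · exact h
    · exact absurd h hB.ne
  exact ⟨h.zero hs, by linarith⟩

/-- linear functional: zero at `p`, positive at `q`, value `≤ 0` at `z` ⇒ `z = p` -/
theorem On.eq_of_pos {p q z : ℂ} {s A B C : ℝ} (h : On p q s z) (hC : C = (1 - s) * A + s * B)
    (hA : 0 ≤ A) (hB : 0 < B) (h0 : C ≤ 0) : z = p ∧ C = 0 := by
  obtain ⟨h1, h2⟩ := h.eq_of_neg (A := -A) (B := -B) (C := -C) (by rw [hC]; ring) (by linarith)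
    (by linarith) (by linarith)
  exact ⟨h1, by linarith⟩

theorem Facts.AA (F : Facts q φ μ c g ε κ) {τ : T} {i j : Fin 4} (hij : i ≠ j) {z : ℂ}
    {s s' : ℝ} (h : On (c τ (.m i)) (c τ .z) s z) (h' : On (c τ (.m j)) (c τ .z) s' z) :
    z = c τ .z := by
  rcases h.symm.common h'.symm with h1 | ⟨r, hr, h1⟩ | ⟨r, hr, h1⟩
  · exact h1
  · have h2 := (h1.symm.above (by rw [F.exm]) (F.exz τ)).2 (by rw [F.exm])
    exact absurd (F.m_inj h2.1).symm hij
  · have h2 := (h1.symm.above (by rw [F.exm]) (F.exz τ)).2 (by rw [F.exm])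
    exact absurd (F.m_inj h2.1) hij

theorem Facts.AB (F : Facts q φ μ c g ε κ) {τ : T} {i j : Fin 4} {z : ℂ}
    {s s' : ℝ} (h : On (c τ (.m i)) (c τ .z) s z) (h' : On (c τ .z) (c τ (.y j)) s' z) :
    z = c τ .z := by
  rcases h.symm.common h' with h1 | ⟨r, hr, h1⟩ | ⟨r, hr, h1⟩
  · exact h1
  · exfalso
    have h2 := h1.kf_eq (μ := μ) (κ := κ) τ j
    have h3 := F.kf_y_pos τ j
    have h4 := F.kf_z_neg τ j
    have h5 := F.kf_m_le τ j i
    have := h1.1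
    have := h1.2.1
    nlinarith
  · exfalso
    have h2 := (h1.above (F.exz τ).le (F.exy τ j)).2 (by rw [F.exm])
    exact (F.exz τ).ne' h2.2

theorem Facts.AC (F : Facts q φ μ c g ε κ) {τ : T} {k l i : Fin 4} (hl : l = i ∨ l = i - 1)
    {z : ℂ} {s s' : ℝ} (h : On (c τ (.m k)) (c τ .z) s z)
    (h' : On (c τ (.m l)) (c τ (.y i)) s' z) : k = l ∧ z = c τ (.m k) := by
  have h1 := h.kf_eq (μ := μ) (κ := κ) τ i
  have h2 := h'.kf_eq (μ := μ) (κ := κ) τ i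
  have h3 := F.kf_m_le τ i k
  have h4 := F.kf_m_zero τ i l hl
  have h5 := F.kf_z_neg τ i
  have h6 := F.kf_y_pos τ i
  have h7 : 0 ≤ kf μ κ τ i z := by
    rw [h2, h4]
    have := mul_nonneg h'.1 h6.le
    linarith
  obtain ⟨h8, h9⟩ := h.eq_of_neg h1 h3 h5 h7
  obtain ⟨h10, -⟩ := h'.eq_of_pos h2 h4.ge h6 h9.le
  exact ⟨F.m_inj (h8.symm.trans h10), h8⟩

theorem Facts.BB (F : Facts q φ μ c g ε κ) {τ : T} {i j : Fin 4} (hij : i ≠ j) {z : ℂ}
    {s s' : ℝ} (h : On (c τ .z) (c τ (.y i)) s z) (h' : On (c τ .z) (c τ (.y j)) s' z) :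
    z = c τ .z := by
  have aux : ∀ (i j : Fin 4), i ≠ j → ∀ r : ℝ, On (c τ .z) (c τ (.y i)) r (c τ (.y j)) →
      False := by
    intro i j hij r h1
    have h2 := h1.kf_eq (μ := μ) (κ := κ) τ j
    have h3 := F.kf_y_pos τ j
    have h4 := F.kf_z_neg τ j
    have h5 := F.kf_y_neg τ j i hij
    have := h1.1
    have := h1.2.1
    nlinarith
  rcases h.common h' with h1 | ⟨r, hr, h1⟩ | ⟨r, hr, h1⟩
  · exact h1
  · exact (aux i j hij r h1).elim
  · exact (aux j i hij.symm r h1).elim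

theorem Facts.BC (F : Facts q φ μ c g ε κ) {τ : T} {j l i : Fin 4} (hl : l = i ∨ l = i - 1)
    {z : ℂ} {s s' : ℝ} (h : On (c τ .z) (c τ (.y j)) s z)
    (h' : On (c τ (.m l)) (c τ (.y i)) s' z) : j = i ∧ z = c τ (.y i) := by
  have h4 := F.kf_m_zero τ i l hl
  have h5 := F.kf_z_neg τ i
  have h6 := F.kf_y_pos τ i
  by_cases hji : j = i
  · subst hji
    refine ⟨rfl, ?_⟩
    rcases h.symm.common h'.symm with h1 | ⟨r, hr, h1⟩ | ⟨r, hr, h1⟩
    · exact h1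
    · exfalso
      have h2 := (h1.above (F.exy τ j).le (F.exz τ)).2 (by rw [F.exm])
      exact (F.exy τ j).ne' h2.2
    · exfalso
      have h2 := h1.kf_eq (μ := μ) (κ := κ) τ j
      have := h1.1
      have := h1.2.1
      nlinarith
  · exfalso
    have h1 := h.kf_eq (μ := μ) (κ := κ) τ i
    have h2 := h'.kf_eq (μ := μ) (κ := κ) τ i
    have h7 : 0 ≤ kf μ κ τ i z := by
      rw [h2, h4]
      have := mul_nonneg h'.1 h6.le
      linarith
    obtain ⟨h8, h9⟩ := h.eq_of_neg h1 h5.le (F.kf_y_neg τ i j hji) h7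
    rw [h8] at h9
    linarith

theorem Facts.CC (F : Facts q φ μ c g ε κ) {τ : T} {k l i j : Fin 4} (hk : k = i ∨ k = i - 1)
    (hl : l = j ∨ l = j - 1) (hne : (k, i) ≠ (l, j))
    {z : ℂ} {s s' : ℝ} (h : On (c τ (.m k)) (c τ (.y i)) s z)
    (h' : On (c τ (.m l)) (c τ (.y j)) s' z) :
    (k = l ∧ z = c τ (.m k)) ∨ (i = j ∧ z = c τ (.y i)) := by
  by_cases hij : i = j
  · subst hij
    right
    refine ⟨rfl, ?_⟩
    have hkl : k ≠ l := fun h => hne (by rw [h])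
    rcases h.symm.common h'.symm with h1 | ⟨r, hr, h1⟩ | ⟨r, hr, h1⟩
    · exact h1
    · have h2 := (h1.symm.above (by rw [F.exm]) (F.exy τ i)).2 (by rw [F.exm])
      exact absurd (F.m_inj h2.1).symm hkl
    · have h2 := (h1.symm.above (by rw [F.exm]) (F.exy τ i)).2 (by rw [F.exm])
      exact absurd (F.m_inj h2.1) hkl
  · left
    have h1 := h'.kf_eq (μ := μ) (κ := κ) τ i
    have h2 := h.kf_eq (μ := μ) (κ := κ) τ i
    have h3 := F.kf_m_le τ i l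
    have h4 := F.kf_m_zero τ i k hk
    have h5 := F.kf_y_neg τ i j (Ne.symm hij)
    have h6 := F.kf_y_pos τ i
    have h7 : 0 ≤ kf μ κ τ i z := by
      rw [h2, h4]
      have := mul_nonneg h.1 h6.le
      linarith
    obtain ⟨h8, h9⟩ := h'.eq_of_neg h1 h3 h5 h7
    obtain ⟨h10, -⟩ := h.eq_of_pos h2 h4.ge h6 h9.le
    exact ⟨F.m_inj (h10.symm.trans h8), h10⟩

/-- types of core edges -/
theorem CAdj_cases {u v : CV} (h : CAdj u v) :
    (∃ k, u = .m k ∧ v = .z) ∨ (∃ i, u = .z ∧ v = .y i) ∨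
      (∃ k i, u = .m k ∧ v = .y i ∧ (k = i ∨ k = i - 1)) := by
  cases h with
  | mz i => exact Or.inl ⟨i, rfl, rfl⟩
  | zy i => exact Or.inr (Or.inl ⟨i, rfl, rfl⟩)
  | my i => exact Or.inr (Or.inr ⟨i, i, rfl, rfl, Or.inl rfl⟩)
  | my' i => exact Or.inr (Or.inr ⟨i, i + 1, rfl, rfl, Or.inr (by simp)⟩)

theorem Facts.cc (F : Facts q φ μ c g ε κ) (τ : T) (u v u' v' : CV) (h : CAdj u v)
    (h' : CAdj u' v') (hne : (u, v) ≠ (u', v')) (z : ℂ)
    (hz : z ∈ segment ℝ (c τ u) (c τ v) ∩ segment ℝ (c τ u') (c τ v')) :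
    ∃ w, (w = u ∨ w = v) ∧ (w = u' ∨ w = v') ∧ z = c τ w := by
  obtain ⟨s, hs⟩ := seg hz.1
  obtain ⟨s', hs'⟩ := seg hz.2
  rcases CAdj_cases h with ⟨k, rfl, rfl⟩ | ⟨i, rfl, rfl⟩ | ⟨k, i, rfl, rfl, hk⟩ <;>
  rcases CAdj_cases h' with ⟨l, rfl, rfl⟩ | ⟨j, rfl, rfl⟩ | ⟨l, j, rfl, rfl, hl⟩
  · have hkl : k ≠ l := fun h => hne (by rw [h])
    exact ⟨.z, Or.inr rfl, Or.inr rfl, F.AA hkl hs hs'⟩
  · exact ⟨.z, Or.inr rfl, Or.inl rfl, F.AB hs hs'⟩
  · obtain ⟨h1, h2⟩ := F.AC hl hs hs'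
    exact ⟨.m k, Or.inl rfl, Or.inl (by rw [h1]), h2⟩
  · exact ⟨.z, Or.inl rfl, Or.inr rfl, F.AB hs' hs⟩
  · have hij : i ≠ j := fun h => hne (by rw [h])
    exact ⟨.z, Or.inl rfl, Or.inl rfl, F.BB hij hs hs'⟩
  · obtain ⟨h1, h2⟩ := F.BC hl hs hs'
    exact ⟨.y j, Or.inr (by rw [h1]), Or.inr rfl, h2⟩
  · obtain ⟨h1, h2⟩ := F.AC hk hs' hs
    exact ⟨.m l, Or.inl (by rw [h1]), Or.inl rfl, h2⟩
  · obtain ⟨h1, h2⟩ := F.BC hk hs' hs
    exact ⟨.y i, Or.inr rfl, Or.inr (by rw [h1]), h2⟩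
  · have hne' : (k, i) ≠ (l, j) := by
      intro h
      simp only [Prod.mk.injEq] at h
      exact hne (by rw [h.1, h.2])
    rcases F.CC hk hl hne' hs hs' with ⟨h1, h2⟩ | ⟨h1, h2⟩
    · exact ⟨.m k, Or.inl rfl, Or.inl (by rw [h1]), h2⟩
    · exact ⟨.y i, Or.inr rfl, Or.inr (by rw [h1]), h2⟩

/-- the geometry from the numerical facts -/
noncomputable def Facts.geo (F : Facts q φ μ c g ε κ) {M : ℝ} (hM : ∀ a, par φ μ a ^ 2 < M)
    (hM0 : 0 < M) : Geo q where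
  h := ⟨0, -M⟩
  X := fun x => P (φ x)
  c := c
  inj := F.inj hM0
  ss := by
    intro a b hab z hz
    rw [F.endPt_eq, F.endPt_eq] at hz
    exact F.ss hM a b hab z hz
  sl := by
    intro a τ i z hz
    rw [F.endPt_eq] at hz
    exact F.sl hM a τ i z hz
  sc := by
    intro a τ u v huv z hz
    rw [F.endPt_eq] at hz
    exact F.sc hM a τ u v huv z hz
  ll := F.ll
  lc := F.lc
  cc := F.cc
  ca := F.ca

end

end GeoC
end Pool.Agent.helper64.LP
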