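import Pool.Agent.helper53.LP.GeoA

/-!
# MP_32ee78_lc, module C2b, part 2: construction of the core points
-/

set_option autoImplicit false

namespace Pool.Agent.helper64.LP
namespace GeoC

theorem finite_lower {ι : Type} [Finite ι] (f : ι → ℝ) (hf : ∀ i, 0 < f i) :
    ∃ g : ℝ, 0 < g ∧ ∀ i, g ≤ f i := by
  rcases isEmpty_or_nonempty ι with h | h
  · exact ⟨1, one_pos, fun i => (h.false i).elim⟩
  · obtain ⟨i, hi⟩ := Finite.exists_min f
    exact ⟨f i, hf i, hi⟩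

theorem finite_upper {ι : Type} [Finite ι] (f : ι → ℝ) :
    ∃ M : ℝ, 0 < M ∧ ∀ i, f i < M := by
  rcases isEmpty_or_nonempty ι with h | h
  · exact ⟨1, one_pos, fun i => (h.false i).elim⟩
  · obtain ⟨i, hi⟩ := Finite.exists_max f
    refine ⟨max (f i) 0 + 1, by positivity, fun j => ?_⟩
    have := hi j
    have := le_max_left (f i) 0
    linarith

/-- affine combination of three points -/
noncomputable def comb (β γ : ℝ) (p m n : ℂ) : ℂ :=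
  ⟨(1 - β - γ) * p.re + β * m.re + γ * n.re, (1 - β - γ) * p.im + β * m.im + γ * n.im⟩

theorem K_comb (a b β γ : ℝ) (p m n : ℂ) :
    K a b (comb β γ p m n) = (1 - β - γ) * K a b p + β * K a b m + γ * K a b n := by
  simp only [K, comb]; ring

theorem ex_comb (β γ x m n : ℝ) : ex (comb β γ (P x) (P m) (P n)) =
    (1 - β - γ) * β * (x - m) ^ 2 + (1 - β - γ) * γ * (x - n) ^ 2 + β * γ * (m - n) ^ 2 := by
  simp only [ex, comb, P]; ring

/-- the core points -/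
noncomputable def core {E T : Type} (q : T → Fin 4 → E) (φ : E → ℝ) (μ : T → Fin 4 → ℝ)
    (ε r θ : ℝ) (τ : T) : CV → ℂ
  | .m i => P (μ τ i)
  | .z => comb r 0 (P (μ τ 0)) (P (μ τ 2)) (P (μ τ 2))
  | .y i => comb ((1 - θ) * ε / (μ τ i - φ (q τ i)) ^ 2)
      (θ * ε / (μ τ (i - 1) - φ (q τ i)) ^ 2) (P (φ (q τ i))) (P (μ τ i)) (P (μ τ (i - 1)))

theorem avg_ge {β γ A B C g : ℝ} (hβ : 0 ≤ β) (hγ : 0 ≤ γ) (h : β + γ ≤ 1) (hA : g ≤ A)
    (hB : g ≤ B) (hC : g ≤ C) : g ≤ (1 - β - γ) * A + β * B + γ * C := by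
  nlinarith [mul_nonneg (show (0 : ℝ) ≤ 1 - β - γ by linarith) (sub_nonneg.2 hA),
    mul_nonneg hβ (sub_nonneg.2 hB), mul_nonneg hγ (sub_nonneg.2 hC)]

theorem avg_neg {β γ A B C : ℝ} (hβ : 0 ≤ β) (hγ : 0 ≤ γ) (h : β + γ < 1) (hA : A < 0)
    (hB : B ≤ 0) (hC : C ≤ 0) : (1 - β - γ) * A + β * B + γ * C < 0 := by
  have h1 : (1 - β - γ) * A < 0 := mul_neg_of_pos_of_neg (by linarith) hA
  have h2 : β * B ≤ 0 := mul_nonpos_of_nonneg_of_nonpos hβ hB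
  have h3 : γ * C ≤ 0 := mul_nonpos_of_nonneg_of_nonpos hγ hC
  linarith

variable {E T : Type} {q : T → Fin 4 → E} {φ : E → ℝ} {μ : T → Fin 4 → ℝ}

/-- the weights -/
theorem weights {g ε θ a b : ℝ} (hε : 0 < ε) (hg : ε < g) (hθ : 0 < θ) (hθ1 : θ < 1)
    (ha : g ≤ a ^ 2) (hb : g ≤ b ^ 2) :
    0 < (1 - θ) * ε / b ^ 2 ∧ 0 < θ * ε / a ^ 2 ∧
      (1 - θ) * ε / b ^ 2 + θ * ε / a ^ 2 < 1 := by
  have ha0 : 0 < a ^ 2 := by linarith
  have hb0 : 0 < b ^ 2 := by linarith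
  have h1 : 0 < (1 - θ) * ε := mul_pos (by linarith) hε
  have h2 : 0 < θ * ε := mul_pos hθ hε
  refine ⟨div_pos h1 hb0, div_pos h2 ha0, ?_⟩
  have h3 : (1 - θ) * ε / b ^ 2 < 1 - θ := by
    rw [div_lt_iff₀ hb0]
    exact mul_lt_mul_of_pos_left (by linarith) (by linarith)
  have h4 : θ * ε / a ^ 2 < θ := by
    rw [div_lt_iff₀ ha0]
    exact mul_lt_mul_of_pos_left (by linarith) hθ
  linarith

theorem facts (φinj : Function.Injective φ) (μφ : ∀ τ i x, μ τ i ≠ φ x)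
    (μinj : ∀ τ i τ' i', μ τ i = μ τ' i' → τ = τ' ∧ i = i')
    (h3 : ∀ τ i j, j ≠ i → j ≠ i - 1 → Sep (μ τ (i - 1)) (φ (q τ i)) (μ τ i) (μ τ j))
    (h4 : ∀ τ i j, j ≠ i → Sep (μ τ (i - 1)) (φ (q τ i)) (μ τ i) (φ (q τ j)))
    {g ε r θ : ℝ} (hg : ∀ a b : E ⊕ (T × Fin 4), a ≠ b → g ≤ (par φ μ a - par φ μ b) ^ 2)
    (hε : 0 < ε) (hεg : ε < g) (hr : 0 < r) (hr1 : r < 1)
    (hrg : ∀ τ, r * (μ τ 2 - μ τ 0) ^ 2 < g) (hθ : 0 < θ) (hθ1 : θ < 1)
    (hdist : ∀ τ i τ' i', q τ i = q τ' i' →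
      (1 - θ) / (μ τ i - φ (q τ i)) + θ / (μ τ (i - 1) - φ (q τ i))
        = (1 - θ) / (μ τ' i' - φ (q τ' i')) + θ / (μ τ' (i' - 1) - φ (q τ' i')) →
      τ = τ' ∧ i = i') :
    Facts q φ μ (core q φ μ ε r θ) g ε
      (fun τ i => K (μ τ (i - 1)) (μ τ i) (P (φ (q τ i)))) := by
  have gμφ : ∀ τ i x, g ≤ (μ τ i - φ x) ^ 2 := fun τ i x =>
    hg (.inr (τ, i)) (.inl x) (by simp)
  have gφφ : ∀ x y, x ≠ y → g ≤ (φ y - φ x) ^ 2 := fun x y hxy =>
    hg (.inl y) (.inl x) (by simpa using hxy.symm)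
  have gμμ : ∀ τ i τ' i', ¬(τ = τ' ∧ i = i') → g ≤ (μ τ i - μ τ' i') ^ 2 := fun τ i τ' i' h =>
    hg (.inr (τ, i)) (.inr (τ', i')) (by simpa using h)
  have gφμ : ∀ x τ i, g ≤ (φ x - μ τ i) ^ 2 := fun x τ i =>
    hg (.inl x) (.inr (τ, i)) (by simp)
  have hw : ∀ τ i, 0 < (1 - θ) * ε / (μ τ i - φ (q τ i)) ^ 2 ∧
      0 < θ * ε / (μ τ (i - 1) - φ (q τ i)) ^ 2 ∧
      (1 - θ) * ε / (μ τ i - φ (q τ i)) ^ 2 + θ * ε / (μ τ (i - 1) - φ (q τ i)) ^ 2 < 1 :=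
    fun τ i => weights hε hεg hθ hθ1 (gμφ _ _ _) (gμφ _ _ _)
  have hm : ∀ τ i j, K (μ τ (i - 1)) (μ τ i) (P (φ (q τ i))) *
      K (μ τ (i - 1)) (μ τ i) (P (μ τ j)) ≤ 0 := by
    intro τ i j
    by_cases h1 : j = i
    · rw [h1, K_P _ _ (μ τ i)]; simp
    by_cases h2 : j = i - 1
    · rw [h2, K_P _ _ (μ τ (i - 1))]; simp
    have := h3 τ i j h1 h2
    rw [Sep] at this
    rw [K_P, K_P]
    nlinarith [this]
  have hm' : ∀ τ i j, j ≠ i → j ≠ i - 1 → K (μ τ (i - 1)) (μ τ i) (P (φ (q τ i))) *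
      K (μ τ (i - 1)) (μ τ i) (P (μ τ j)) < 0 := by
    intro τ i j h1 h2
    have := h3 τ i j h1 h2
    rw [Sep] at this
    rw [K_P, K_P]
    nlinarith [this]
  refine
    { hε := hε, hg := hεg, φinj := φinj, μφ := μφ, μinj := μinj, cm := fun _ _ => rfl,
      exz := ?_, exy := ?_, lX := ?_, lm := ?_, lz := ?_, ly := ?_, ly' := ?_, mu := ?_,
      mu' := ?_, ky := ?_, kz := ?_, ky' := ?_, km := ?_, dist := ?_ }
  · intro τ
    show 0 < ex (comb r 0 (P (μ τ 0)) (P (μ τ 2)) (P (μ τ 2)))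
    rw [ex_comb]
    have h1 := gμμ τ 0 τ 2 (by simp)
    have h2 : 0 < (1 - r) * r := mul_pos (by linarith) hr
    nlinarith
  · intro τ i
    show 0 < ex (comb _ _ (P _) (P _) (P _))
    rw [ex_comb]
    obtain ⟨h1, h2, h5⟩ := hw τ i
    have h6 := gφμ (q τ i) τ i
    have h7 : 0 < (1 - (1 - θ) * ε / (μ τ i - φ (q τ i)) ^ 2
        - θ * ε / (μ τ (i - 1) - φ (q τ i)) ^ 2) * ((1 - θ) * ε / (μ τ i - φ (q τ i)) ^ 2)
          * (φ (q τ i) - μ τ i) ^ 2 :=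
      mul_pos (mul_pos (by linarith) h1) (by linarith)
    have h8 : 0 ≤ (1 - (1 - θ) * ε / (μ τ i - φ (q τ i)) ^ 2
        - θ * ε / (μ τ (i - 1) - φ (q τ i)) ^ 2) * (θ * ε / (μ τ (i - 1) - φ (q τ i)) ^ 2)
          * (φ (q τ i) - μ τ (i - 1)) ^ 2 :=
      mul_nonneg (mul_nonneg (by linarith) h2.le) (sq_nonneg _)
    have h9 : 0 ≤ (1 - θ) * ε / (μ τ i - φ (q τ i)) ^ 2 *
        (θ * ε / (μ τ (i - 1) - φ (q τ i)) ^ 2) * (μ τ i - μ τ (i - 1)) ^ 2 :=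
      mul_nonneg (mul_nonneg h1.le h2.le) (sq_nonneg _)
    linarith
  · intro x y hxy
    rw [K_P]
    have := gφφ x y hxy
    nlinarith
  · intro x τ i
    show g ≤ K (φ x) (φ x) (P (μ τ i))
    rw [K_P]
    have := gμφ τ i x
    nlinarith
  · intro x τ
    show g ≤ K (φ x) (φ x) (comb r 0 (P (μ τ 0)) (P (μ τ 2)) (P (μ τ 2)))
    rw [K_comb, K_P, K_P]
    have h1 := gμφ τ 0 x
    have h2 := gμφ τ 2 x
    exact avg_ge hr.le le_rfl (by linarith) (by nlinarith) (by nlinarith) (by nlinarith)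
  · intro x τ i hx
    show g ≤ K (φ x) (φ x) (comb _ _ (P _) (P _) (P _))
    rw [K_comb, K_P, K_P, K_P]
    obtain ⟨h1, h2, h5⟩ := hw τ i
    have h6 := gφφ x (q τ i) (Ne.symm hx)
    have h7 := gμφ τ i x
    have h8 := gμφ τ (i - 1) x
    exact avg_ge h1.le h2.le h5.le (by nlinarith) (by nlinarith) (by nlinarith)
  · intro τ i
    show K (φ (q τ i)) (φ (q τ i)) (comb _ _ (P _) (P _) (P _)) = ε
    rw [K_comb, K_P, K_P, K_P]
    have h7 := gμφ τ i (q τ i)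
    have h8 := gμφ τ (i - 1) (q τ i)
    have h9 : μ τ i - φ (q τ i) ≠ 0 := sub_ne_zero.2 (μφ _ _ _)
    have h10 : μ τ (i - 1) - φ (q τ i) ≠ 0 := sub_ne_zero.2 (μφ _ _ _)
    have e1 : (1 - θ) * ε / (μ τ i - φ (q τ i)) ^ 2 *
        ((μ τ i - φ (q τ i)) * (μ τ i - φ (q τ i))) = (1 - θ) * ε := by
      field_simp
    have e2 : θ * ε / (μ τ (i - 1) - φ (q τ i)) ^ 2 *
        ((μ τ (i - 1) - φ (q τ i)) * (μ τ (i - 1) - φ (q τ i))) = θ * ε := by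
      field_simp
    rw [e1, e2]
    ring
  · intro τ τ' w hne
    have hne' : ∀ i : Fin 4, ¬(τ = τ' ∧ i = 0) := fun i h => hne h.1
    cases w with
    | m i =>
      show g ≤ K (μ τ' 0) (μ τ' 0) (P (μ τ i))
      rw [K_P]
      have := gμμ τ i τ' 0 (hne' i)
      nlinarith
    | z =>
      show g ≤ K (μ τ' 0) (μ τ' 0) (comb r 0 (P (μ τ 0)) (P (μ τ 2)) (P (μ τ 2)))
      rw [K_comb, K_P, K_P]
      have h1 := gμμ τ 0 τ' 0 (hne' 0)
      have h2 := gμμ τ 2 τ' 0 (hne' 2)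
      exact avg_ge hr.le le_rfl (by linarith) (by nlinarith) (by nlinarith) (by nlinarith)
    | y i =>
      show g ≤ K (μ τ' 0) (μ τ' 0) (comb _ _ (P _) (P _) (P _))
      rw [K_comb, K_P, K_P, K_P]
      obtain ⟨h1, h2, h5⟩ := hw τ i
      have h6 := gφμ (q τ i) τ' 0
      have h7 := gμμ τ i τ' 0 (hne' i)
      have h8 := gμμ τ (i - 1) τ' 0 (hne' _)
      exact avg_ge h1.le h2.le h5.le (by nlinarith) (by nlinarith) (by nlinarith)
  · intro τ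
    show K (μ τ 0) (μ τ 0) (comb r 0 (P (μ τ 0)) (P (μ τ 2)) (P (μ τ 2))) < g
    rw [K_comb, K_P, K_P]
    have := hrg τ
    nlinarith
  · intro τ i
    show 0 < _ * K _ _ (comb _ _ (P _) (P _) (P _))
    rw [K_comb, K_P _ _ (μ τ i), K_P _ _ (μ τ (i - 1))]
    obtain ⟨h1, h2, h5⟩ := hw τ i
    have h6 : K (μ τ (i - 1)) (μ τ i) (P (φ (q τ i))) ≠ 0 := by
      rw [K_P]
      exact mul_ne_zero (sub_ne_zero.2 (μφ _ _ _).symm) (sub_ne_zero.2 (μφ _ _ _).symm)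
    have h7 := sq_pos_of_ne_zero h6
    have h8 := mul_pos (show 0 < 1 - (1 - θ) * ε / (μ τ i - φ (q τ i)) ^ 2
        - θ * ε / (μ τ (i - 1) - φ (q τ i)) ^ 2 by linarith) h7
    simp only [sub_self, zero_mul, mul_zero, add_zero]
    nlinarith [h8]
  · intro τ i
    show _ * K _ _ (comb r 0 (P (μ τ 0)) (P (μ τ 2)) (P (μ τ 2))) < 0
    rw [K_comb]
    have h0 := hm τ i 0
    have h2 := hm τ i 2
    set κ := K (μ τ (i - 1)) (μ τ i) (P (φ (q τ i)))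
    set A := K (μ τ (i - 1)) (μ τ i) (P (μ τ 0)) with hA
    set B := K (μ τ (i - 1)) (μ τ i) (P (μ τ 2)) with hB
    have h02 : κ * A < 0 ∨ κ * B < 0 := by
      by_cases h5 : (0 : Fin 4) ≠ i ∧ (0 : Fin 4) ≠ i - 1
      · exact Or.inl (hm' τ i 0 h5.1 h5.2)
      · have hfin : ∀ i : Fin 4, ¬((0 : Fin 4) ≠ i ∧ (0 : Fin 4) ≠ i - 1) →
            (2 : Fin 4) ≠ i ∧ (2 : Fin 4) ≠ i - 1 := by decide
        exact Or.inr (hm' τ i 2 (hfin i h5).1 (hfin i h5).2)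
    have e : κ * ((1 - r - 0) * A + r * B + 0 * B) = (1 - r) * (κ * A) + r * (κ * B) := by ring
    rw [e]
    rcases h02 with h5 | h5
    · have := mul_neg_of_pos_of_neg (show 0 < 1 - r by linarith) h5
      have := mul_nonpos_of_nonneg_of_nonpos hr.le h2
      linarith
    · have := mul_neg_of_pos_of_neg hr h5
      have := mul_nonpos_of_nonneg_of_nonpos (show 0 ≤ 1 - r by linarith) h0
      linarith
  · intro τ i j hj
    show _ * K _ _ (comb _ _ (P _) (P _) (P _)) < 0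
    rw [K_comb]
    obtain ⟨h1, h2, h5⟩ := hw τ j
    have h6 := hm τ i j
    have h7 := hm τ i (j - 1)
    have h8 : K (μ τ (i - 1)) (μ τ i) (P (φ (q τ i))) *
        K (μ τ (i - 1)) (μ τ i) (P (φ (q τ j))) < 0 := by
      have := h4 τ i j hj
      rw [Sep] at this
      rw [K_P, K_P]
      nlinarith [this]
    have := avg_neg h1.le h2.le h5 h8 h6 h7
    nlinarith [this]
  · intro τ i j h1 h2
    exact hm' τ i j h1 h2
  · intro τ i τ' i' hq h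
    apply hdist τ i τ' i' hq
    have key : ∀ τ i, (core q φ μ ε r θ τ (.y i)).re = φ (q τ i) +
        ε * ((1 - θ) / (μ τ i - φ (q τ i)) + θ / (μ τ (i - 1) - φ (q τ i))) := by
      intro τ i
      have h9 : μ τ i - φ (q τ i) ≠ 0 := sub_ne_zero.2 (μφ _ _ _)
      have h10 : μ τ (i - 1) - φ (q τ i) ≠ 0 := sub_ne_zero.2 (μφ _ _ _)
      simp only [core, comb, P]
      field_simp
      ring
    rw [key, key, hq] at h
    have := mul_left_cancel₀ hε.ne' (add_left_cancel h)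
    rw [hq]
    exact this

theorem exists_geo_of_params {E T : Type} [Finite E] [Finite T] (q : T → Fin 4 → E)
    (φ : E → ℝ) (μ : T → Fin 4 → ℝ) (φinj : Function.Injective φ) (μφ : ∀ τ i x, μ τ i ≠ φ x)
    (μinj : ∀ τ i τ' i', μ τ i = μ τ' i' → τ = τ' ∧ i = i')
    (h3 : ∀ τ i j, j ≠ i → j ≠ i - 1 → Sep (μ τ (i - 1)) (φ (q τ i)) (μ τ i) (μ τ j))
    (h4 : ∀ τ i j, j ≠ i → Sep (μ τ (i - 1)) (φ (q τ i)) (μ τ i) (φ (q τ j))) :
    Nonempty (Geo q) := by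
  have hinj : Function.Injective (par φ μ) := by
    rintro (x | a) (y | b) h
    · exact congrArg Sum.inl (φinj h)
    · exact absurd h.symm (μφ _ _ _)
    · exact absurd h (μφ _ _ _)
    · obtain ⟨h1, h2⟩ := μinj _ _ _ _ h
      exact congrArg Sum.inr (Prod.ext h1 h2)
  obtain ⟨g, hg0, hg⟩ := finite_lower
    (fun p : {p : (E ⊕ (T × Fin 4)) × (E ⊕ (T × Fin 4)) // p.1 ≠ p.2} =>
      (par φ μ p.1.1 - par φ μ p.1.2) ^ 2)
    (fun p => by
      have : par φ μ p.1.1 - par φ μ p.1.2 ≠ 0 := sub_ne_zero.2 fun h => p.2 (hinj h)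
      positivity)
  obtain ⟨D, hD0, hD⟩ := finite_upper (fun τ : T => (μ τ 2 - μ τ 0) ^ 2)
  obtain ⟨M, hM0, hM⟩ := finite_upper (fun a => par φ μ a ^ 2)
  -- the parameter `r`
  have hr : 0 < g / (D + g) := by positivity
  have hr1 : g / (D + g) < 1 := (div_lt_one (by positivity)).2 (by linarith)
  have hrg : ∀ τ, g / (D + g) * (μ τ 2 - μ τ 0) ^ 2 < g := by
    intro τ
    have h1 := hD τ
    have h2 : g / (D + g) * (μ τ 2 - μ τ 0) ^ 2 ≤ g / (D + g) * D :=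
      mul_le_mul_of_nonneg_left h1.le hr.le
    have h5 : g / (D + g) * D < g := by
      rw [div_mul_eq_mul_div, div_lt_iff₀ (by positivity)]
      nlinarith
    linarith
  -- the parameter `θ`
  have hbad : (⋃ p : (T × Fin 4) × (T × Fin 4), {θ : ℝ | q p.1.1 p.1.2 = q p.2.1 p.2.2 ∧
      ¬(p.1.1 = p.2.1 ∧ p.1.2 = p.2.2) ∧
      (1 - θ) / (μ p.1.1 p.1.2 - φ (q p.1.1 p.1.2))
        + θ / (μ p.1.1 (p.1.2 - 1) - φ (q p.1.1 p.1.2))
        = (1 - θ) / (μ p.2.1 p.2.2 - φ (q p.2.1 p.2.2))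
          + θ / (μ p.2.1 (p.2.2 - 1) - φ (q p.2.1 p.2.2))}).Finite := by
    apply Set.finite_iUnion
    rintro ⟨⟨τ, i⟩, ⟨τ', i'⟩⟩
    apply Set.Subsingleton.finite
    rintro θ ⟨hq, hne, h1⟩ θ' ⟨-, -, h2⟩
    simp only at hq hne h1 h2
    rw [← hq] at h1 h2
    have hb : μ τ i - φ (q τ i) ≠ 0 := sub_ne_zero.2 (μφ _ _ _)
    have hb' : μ τ' i' - φ (q τ i) ≠ 0 := sub_ne_zero.2 (μφ _ _ _)
    set b := μ τ i - φ (q τ i) with hbdef
    set b' := μ τ' i' - φ (q τ i) with hb'def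
    set a := μ τ (i - 1) - φ (q τ i)
    set a' := μ τ' (i' - 1) - φ (q τ i)
    have hbb : 1 / b - 1 / b' ≠ 0 := by
      intro h
      have h5 : b = b' := by
        field_simp at h
        linarith
      exact hne (μinj _ _ _ _ (by linarith))
    -- `A + θ B = 0`
    have e1 : (1 / b - 1 / b') + θ * (1 / a - 1 / a' - (1 / b - 1 / b')) = 0 := by
      have : (1 - θ) / b + θ / a - ((1 - θ) / b' + θ / a') = 0 := by linarith
      rw [← this]; ring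
    have e2 : (1 / b - 1 / b') + θ' * (1 / a - 1 / a' - (1 / b - 1 / b')) = 0 := by
      have : (1 - θ') / b + θ' / a - ((1 - θ') / b' + θ' / a') = 0 := by linarith
      rw [← this]; ring
    set B := 1 / a - 1 / a' - (1 / b - 1 / b')
    have hB : B ≠ 0 := by
      intro h
      rw [h] at e1
      exact hbb (by linarith)
    have : (θ - θ') * B = 0 := by linarith
    rcases mul_eq_zero.1 this with h | h
    · linarith
    · exact absurd h hB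
  obtain ⟨θ, hθ, hθbad⟩ := (Set.Ioo_infinite (show (0 : ℝ) < 1 by norm_num)).exists_notMem_finite
    hbad
  have hF := facts (q := q) (φ := φ) (μ := μ) φinj μφ μinj h3 h4 (g := g) (ε := g / 2)
    (r := g / (D + g)) (θ := θ) (fun a b hab => hg ⟨(a, b), hab⟩) (by linarith) (by linarith)
    hr hr1 hrg hθ.1 hθ.2 (by
      intro τ i τ' i' hq h
      by_contra hne
      apply hθbad
      exact Set.mem_iUnion.2 ⟨((τ, i), (τ', i')), hq, hne, h⟩)
  exact ⟨hF.geo hM hM0⟩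

end GeoC
end Pool.Agent.helper64.LP
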